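import Pool.Agent.H21.INS.EraCut
import Pool.Agent.H51.ERA.Full

/-!
MP_e0047e_lc: the erasing grammar over an arbitrary alphabet with two letters.
-/

set_option autoImplicit false

namespace Pool.Agent.H21.INS.Era

open Pool.Agent.H51.ERA

section
variable {T : Type} (c : Ltr → List T)

/-- coding of symbols -/
def hs : Symbol Ltr NT → List (Symbol T NT)
  | Symbol.nonterminal A => [Symbol.nonterminal A]
  | Symbol.terminal a => (c a).map Symbol.terminal

/-- the coded rules -/
def rulc (r : Rl) : ContextFreeRule T NT := ⟨(rul r).input, (rul r).output.flatMap (hs c)⟩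

theorem der_fwd {rs : List Rl} {u v : List (Symbol Ltr NT)} (h : Der rul rs u v) :
    Der (rulc c) rs (u.flatMap (hs c)) (v.flatMap (hs c)) := by
  induction h with
  | nil u => exact Der.nil _
  | cons hr _ ih =>
    refine Der.cons ?_ ih
    rw [ContextFreeRule.rewrites_iff] at hr ⊢
    obtain ⟨p, q, h1, h2⟩ := hr
    exact ⟨p.flatMap (hs c), q.flatMap (hs c), by rw [h1]; simp [hs, rulc],
      by rw [h2]; simp [rulc]⟩

theorem split_nt (u : List (Symbol Ltr NT)) : ∀ (p' q' : List (Symbol T NT)) (A : NT),
    u.flatMap (hs c) = p' ++ [Symbol.nonterminal A] ++ q' →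
    ∃ p q, u = p ++ [Symbol.nonterminal A] ++ q ∧ p.flatMap (hs c) = p' ∧
      q.flatMap (hs c) = q' := by
  induction u with
  | nil =>
    intro p' q' A h
    simp at h
  | cons x u ih =>
    intro p' q' A h
    rw [List.flatMap_cons, List.append_assoc] at h
    rcases List.append_eq_append_iff.1 h with ⟨a', h1, h2⟩ | ⟨c', h1, h2⟩
    · -- p' = hs x ++ a'
      obtain ⟨p, q, h3, h4, h5⟩ := ih a' q' A (by rw [h2]; simp)
      exact ⟨x :: p, q, by rw [h3]; simp, by rw [List.flatMap_cons, h4, h1], h5⟩
    · -- hs x = p' ++ c'
      cases c' with
      | nil =>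
        have h2' : u.flatMap (hs c) = [Symbol.nonterminal A] ++ q' := by simpa using h2.symm
        obtain ⟨p, q, h3, h4, h5⟩ := ih [] q' A (by rw [h2']; simp)
        refine ⟨x :: p, q, by rw [h3]; simp, ?_, h5⟩
        rw [List.flatMap_cons, h4, List.append_nil]
        simpa using h1
      | cons z c'' =>
        have hz : z = Symbol.nonterminal A ∧ q' = c'' ++ u.flatMap (hs c) := by
          simpa using And.intro (List.cons.inj h2).1.symm (List.cons.inj h2).2
        cases x with
        | terminal a =>
          exfalso
          have : z ∈ hs c (Symbol.terminal a) := by rw [h1]; simp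
          rw [hz.1] at this
          simp [hs] at this
        | nonterminal B =>
          have h3 : [Symbol.nonterminal B] = p' ++ z :: c'' := h1
          cases p' with
          | nil =>
            simp only [List.nil_append, List.cons.injEq] at h3
            refine ⟨[], u, ?_, rfl, ?_⟩
            · have : B = A := by
                have := h3.1.trans hz.1
                exact Symbol.nonterminal.inj this
              rw [this]; simp
            · rw [hz.2, ← h3.2]; simp
          | cons y p'' => simp at h3

theorem der_bwd {rs : List Rl} {U V : List (Symbol T NT)} (h : Der (rulc c) rs U V) :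
    ∀ u : List (Symbol Ltr NT), U = u.flatMap (hs c) →
      ∃ v : List (Symbol Ltr NT), V = v.flatMap (hs c) ∧ Der rul rs u v := by
  induction h with
  | nil U =>
    intro u hu
    exact ⟨u, hu, Der.nil _⟩
  | @cons r rs U V W hr _ ih =>
    intro u hu
    rw [ContextFreeRule.rewrites_iff] at hr
    obtain ⟨p', q', h1, h2⟩ := hr
    obtain ⟨p, q, h3, h4, h5⟩ := split_nt c u p' q' _ (by rw [← hu]; exact h1)
    obtain ⟨v, hv, hd⟩ := ih (p ++ (rul r).output ++ q) (by
      rw [h2, List.flatMap_append, List.flatMap_append, h4, h5]; rfl)
    refine ⟨v, hv, Der.cons ?_ hd⟩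
    rw [ContextFreeRule.rewrites_iff]
    exact ⟨p, q, h3, rfl⟩

theorem all_term (u : List (Symbol Ltr NT)) : ∀ v : List T,
    v.map Symbol.terminal = u.flatMap (hs c) →
    ∃ w : List Ltr, u = w.map Symbol.terminal ∧ v = w.flatMap c := by
  induction u with
  | nil =>
    intro v hv
    refine ⟨[], rfl, ?_⟩
    simpa using hv
  | cons x u ih =>
    intro v hv
    cases x with
    | nonterminal B =>
      exfalso
      have : (Symbol.nonterminal B : Symbol T NT) ∈ v.map Symbol.terminal := by
        rw [hv]; simp [hs]
      simp at this
    | terminal a =>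
      rw [List.flatMap_cons] at hv
      obtain ⟨v1, v2, h1, h2, h3⟩ := List.map_eq_append_iff.1 hv
      obtain ⟨w, hw1, hw2⟩ := ih v2 h3
      refine ⟨a :: w, by rw [hw1]; rfl, ?_⟩
      have h4 : v1 = c a := by
        have : v1.map (Symbol.terminal : T → Symbol T NT) = (c a).map Symbol.terminal := h2
        exact (List.map_injective_iff.2 (fun x y h => Symbol.terminal.inj h)) this
      rw [h1, h4, hw2]; rfl

theorem map_term (w : List Ltr) :
    (w.map Symbol.terminal).flatMap (hs c) = (w.flatMap c).map Symbol.terminal := by
  induction w with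
  | nil => rfl
  | cons a w ih =>
    rw [List.map_cons, List.flatMap_cons, ih, List.flatMap_cons, List.map_append]; rfl

theorem lg_coded (v : List T) :
    LG NT.S (rulc c) MH v ↔ ∃ w : List Ltr, v = w.flatMap c ∧ LH w := by
  constructor
  · rintro ⟨rs, hacc, hd⟩
    obtain ⟨u, hu, hd'⟩ := der_bwd c hd [Symbol.nonterminal NT.S] (by simp [hs])
    obtain ⟨w, hw1, hw2⟩ := all_term c u v hu
    exact ⟨w, hw2, rs, hacc, by rw [← hw1]; exact hd'⟩
  · rintro ⟨w, rfl, rs, hacc, hd⟩
    refine ⟨rs, hacc, ?_⟩
    have := der_fwd c hd
    rw [map_term] at this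
    simpa [hs] using this

end

theorem flat_inj {T : Type} {k : ℕ} {c : Ltr → List T} (hc : ∀ x, (c x).length = k) (hk : 0 < k)
    (hinj : Function.Injective c) : ∀ w w' : List Ltr, w.flatMap c = w'.flatMap c → w = w' := by
  intro w
  induction w with
  | nil =>
    intro w' h
    cases w' with
    | nil => rfl
    | cons b w' =>
      exfalso
      have := congrArg List.length h
      rw [flat_len hc, flat_len hc, List.length_cons, Nat.mul_add] at this
      simp at this
      omega
  | cons a w ih =>
    intro w' h
    cases w' with
    | nil =>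
      exfalso
      have := congrArg List.length h
      rw [flat_len hc, flat_len hc, List.length_cons, Nat.mul_add] at this
      simp at this
      omega
    | cons b w' =>
      rw [List.flatMap_cons, List.flatMap_cons] at h
      obtain ⟨h1, h2⟩ := List.append_inj h (by rw [hc, hc])
      rw [hinj h1, ih w' h2]

theorem bin_main {T N' Λ' σ' : Type} [Finite T] [Finite N'] [Finite Λ'] [Finite σ'] {k : ℕ}
    {c : Ltr → List T} (hc : ∀ x, (c x).length = k) (hk : 0 < k) (hinj : Function.Injective c)
    (S' : N') (lab' : Λ' → ContextFreeRule T N') (M' : DFA Λ' σ')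
    (hne : ∀ l, (lab' l).output ≠ []) :
    ¬ ∀ v : List T, v ≠ [] → (LG S' lab' M' v ↔ LG NT.S (rulc c) MH v) := by
  intro h
  have := Fintype.ofFinite Λ'
  have := Fintype.ofFinite σ'
  obtain ⟨rho, ⟨sys⟩⟩ := CSY2 PRA_thm PRB_thm PRC_f hc hk S' lab' M' hne
  have hF1 : Finite {l : List (Symbol T N') // l.length ≤ k} := by
    have : Finite (Symbol T N') := by
      refine Finite.of_injective (fun x : Symbol T N' =>
        (match x with | .terminal a => Sum.inl a | .nonterminal b => Sum.inr b : T ⊕ N')) ?_
      intro x y hxy
      cases x <;> cases y <;> simp_all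
    exact (List.finite_length_le (Symbol T N') k).to_subtype
  have hF2 : Finite {l : List T // l.length < k} := (List.finite_length_lt T k).to_subtype
  have : Fintype (Key T N' k) := Fintype.ofFinite _
  have hcne : ∀ w : List Ltr, w ≠ [] → w.flatMap c ≠ [] := by
    intro w hw h1
    have h2 := congrArg List.length h1
    rw [flat_len hc] at h2
    have h3 := List.length_pos_iff.2 hw
    have : 0 < k * w.length := Nat.mul_pos hk h3
    rw [List.length_nil] at h2
    omega
  refine FIN_f (Key T N' k) σ' _ rho sys ?_ ?_
  · intro w hw
    by_cases hw0 : w = []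
    · subst hw0
      exact ⟨rfl, by intro u a u' h; simp at h, by simp⟩
    · have h1 := (h _ (hcne w hw0)).1 hw
      obtain ⟨w', h2, h3⟩ := (lg_coded c _).1 h1
      rw [flat_inj hc hk hinj w w' h2]
      exact SND_f w' h3
  · intro s t b
    exact (h _ (hcne _ (WW_ne_nil s t b))).2
      ((lg_coded c _).2 ⟨_, rfl, WW_mem_LH CMP_f CMW_f s t b⟩)

/-- a block code over two letters -/
theorem exists_code {T : Type} {a b : T} (hab : a ≠ b) : ∃ c : Ltr → List T,
    (∀ x, (c x).length = 7) ∧ Function.Injective c := by
  have hcard : Fintype.card Ltr ≤ Fintype.card (Fin 7 → Bool) := by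
    simp only [Fintype.card_pi, Fintype.card_bool, Finset.prod_const, Finset.card_univ,
      Fintype.card_fin]
    decide
  obtain ⟨f⟩ := Function.Embedding.nonempty_of_card_le hcard
  refine ⟨fun x => List.ofFn (fun i => if f x i then a else b), fun x => by simp, ?_⟩
  intro x y hxy
  apply f.injective
  funext i
  have h1 : (if f x i then a else b) = (if f y i then a else b) :=
    congrFun (List.ofFn_injective hxy) i
  cases hx : f x i <;> cases hy : f y i <;> simp_all

theorem hs_inj {T : Type} {k : ℕ} {c : Ltr → List T} (hc : ∀ x, (c x).length = k) (hk : 0 < k)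
    (hinj : Function.Injective c) : ∀ u v : List (Symbol Ltr NT),
    u.flatMap (hs c) = v.flatMap (hs c) → u = v := by
  have hne : ∀ x, hs c x ≠ [] := by
    intro x
    cases x with
    | nonterminal A => simp [hs]
    | terminal a =>
      intro h
      have := congrArg List.length h
      simp only [hs, List.length_map, hc, List.length_nil] at this
      omega
  intro u
  induction u with
  | nil =>
    intro v h
    cases v with
    | nil => rfl
    | cons y v =>
      exfalso
      rw [List.flatMap_nil, List.flatMap_cons] at h
      exact hne y (List.append_eq_nil_iff.1 h.symm).1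
  | cons x u ih =>
    intro v h
    cases v with
    | nil =>
      exfalso
      rw [List.flatMap_nil, List.flatMap_cons] at h
      exact hne x (List.append_eq_nil_iff.1 h).1
    | cons y v =>
      rw [List.flatMap_cons, List.flatMap_cons] at h
      cases x with
      | nonterminal A =>
        cases y with
        | nonterminal B =>
          simp only [hs, List.singleton_append, List.cons.injEq, Symbol.nonterminal.injEq] at h
          rw [h.1, ih v h.2]
        | terminal b =>
          exfalso
          have hl : 0 < (c b).length := by rw [hc]; exact hk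
          cases hb : c b with
          | nil => rw [hb] at hl; simp at hl
          | cons z l => simp [hs, hb] at h
      | terminal a =>
        cases y with
        | nonterminal B =>
          exfalso
          have hl : 0 < (c a).length := by rw [hc]; exact hk
          cases hb : c a with
          | nil => rw [hb] at hl; simp at hl
          | cons z l => simp [hs, hb] at h
        | terminal b =>
          obtain ⟨h1, h2⟩ := List.append_inj h (by simp [hs, hc])
          have h3 : c a = c b :=
            (List.map_injective_iff.2 (fun x y h => Symbol.terminal.inj h)) h1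
          rw [hinj h3, ih v h2]

theorem rulc_inj {T : Type} {k : ℕ} {c : Ltr → List T} (hc : ∀ x, (c x).length = k) (hk : 0 < k)
    (hinj : Function.Injective c) : Function.Injective (rulc c) := by
  intro r r' h
  have h1 : (rulc c r).input = (rulc c r').input := by rw [h]
  simp only [rulc] at h1
  have h0 : (rulc c r).output = (rulc c r').output := by rw [h]
  simp only [rulc] at h0
  have h2 : (rul r).output = (rul r').output := hs_inj hc hk hinj _ _ h0
  cases r <;> cases r' <;> simp_all [rul]

end Pool.Agent.H21.INS.Era
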