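import Pool.Agent.H51.ERA.Stmts

/-!
MP_e0047e_lc: the cut system over the letters `Ltr` of a propagating grammar over an arbitrary
alphabet, through a block code `c : Ltr → List T` of constant length.
-/

set_option autoImplicit false

namespace Pool.Agent.H21.INS.Era

open Pool.Agent.H51.ERA

theorem perm_map_lift {α β : Type} (f : α → β) {B C : List β} (h : B.Perm C) :
    ∀ l : List α, C = l.map f → ∃ l' : List α, l'.Perm l ∧ B = l'.map f := by
  induction h with
  | nil =>
    intro l hl
    exact ⟨l, List.Perm.refl _, hl⟩
  | @cons x B C _ ih =>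
    intro l hl
    cases l with
    | nil => simp at hl
    | cons a l =>
      simp only [List.map_cons, List.cons.injEq] at hl
      obtain ⟨l', h1, h2⟩ := ih l hl.2
      exact ⟨a :: l', h1.cons a, by rw [h2, hl.1]; rfl⟩
  | swap x y C =>
    intro l hl
    cases l with
    | nil => simp at hl
    | cons a l =>
      cases l with
      | nil => simp at hl
      | cons b l =>
        simp only [List.map_cons, List.cons.injEq] at hl
        refine ⟨b :: a :: l, List.Perm.swap _ _ _, ?_⟩
        simp [hl.1, hl.2.1, hl.2.2]
  | trans _ _ ih1 ih2 =>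
    intro l hl
    obtain ⟨l1, h1, h2⟩ := ih2 l hl
    obtain ⟨l2, h3, h4⟩ := ih1 l1 h2
    exact ⟨l2, h3.trans h1, h4⟩

variable {T N : Type}

/-- entries of cuts over `T` -/
abbrev En (T N : Type) := Symbol T N × List T

/-- total yield -/
def by' (E : List (En T N)) : List T := E.flatMap Prod.snd

theorem by'_nil : by' ([] : List (En T N)) = [] := rfl
theorem by'_cons (x : En T N) (E : List (En T N)) : by' (x :: E) = x.2 ++ by' E := rfl
theorem by'_append (E F : List (En T N)) : by' (E ++ F) = by' E ++ by' F := by
  simp [by', List.flatMap_append]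

/-- number of groups -/
def cnt (k : ℕ) : ℕ → List (En T N) → ℕ
  | _, [] => 0
  | s, x :: E => (if k ≤ s + x.2.length then 1 else 0) + cnt k ((s + x.2.length) % k) E

theorem cnt_le (k : ℕ) (E : List (En T N)) : ∀ s, cnt k s E ≤ E.length := by
  induction E with
  | nil => intro s; simp [cnt]
  | cons x E ih =>
    intro s
    have := ih ((s + x.2.length) % k)
    simp only [cnt, List.length_cons]
    split_ifs <;> omega

theorem cnt_append (k : ℕ) (E F : List (En T N)) : ∀ s, s < k →
    cnt k s (E ++ F) = cnt k s E + cnt k ((s + (by' E).length) % k) F := by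
  induction E with
  | nil =>
    intro s hs
    simp [cnt, by', Nat.mod_eq_of_lt hs]
  | cons x E ih =>
    intro s hs
    have hk : 0 < k := by omega
    simp only [List.cons_append, cnt]
    rw [ih _ (Nat.mod_lt _ hk), by'_cons, List.length_append, Nat.mod_add_mod]
    rw [show s + (x.2.length + (by' E).length) = s + x.2.length + (by' E).length by ring]
    ring

/-- refinement of one entry -/
theorem cnt_refine (k : ℕ) (hk : 0 < k) (K₁ Ks K₂ : List (En T N)) (A : Symbol T N) :
    cnt k 0 (K₁ ++ Ks ++ K₂) ≤ cnt k 0 (K₁ ++ [(A, Ks.flatMap Prod.snd)] ++ K₂) + Ks.length := by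
  rw [List.append_assoc, List.append_assoc, cnt_append k _ _ 0 hk, cnt_append k _ _ 0 hk]
  have h1 : (0 + (by' K₁).length) % k < k := Nat.mod_lt _ hk
  rw [cnt_append k _ _ _ h1, cnt_append k _ _ _ h1]
  have h2 : by' [(A, Ks.flatMap Prod.snd)] = by' Ks := by simp [by']
  rw [h2]
  have := cnt_le k Ks ((0 + (by' K₁).length) % k)
  omega

/-- A group of entries. -/
structure Grp (T N : Type) (k : ℕ) (c : Ltr → List T) where
  e : List (En T N)
  h : List T
  t : List T
  y : List Ltr
  hh : h.length < k
  ht : t.length < k
  he : e.length ≤ k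
  hy : y ≠ []
  eq : h ++ by' e = y.flatMap c ++ t

/-- The new nonterminals. -/
abbrev Key (T N : Type) (k : ℕ) :=
  {l : List (Symbol T N) // l.length ≤ k} × {l : List T // l.length < k} × {l : List T // l.length < k}

variable {k : ℕ} {c : Ltr → List T}

/-- the nonterminal of a group -/
def Grp.key (g : Grp T N k c) : Key T N k :=
  (⟨g.e.map Prod.fst, by rw [List.length_map]; exact g.he⟩, ⟨g.h, g.hh⟩, ⟨g.t, g.ht⟩)

/-- the entry of a group -/
def Grp.sg (g : Grp T N k c) : Sg (Key T N k) := (Symbol.nonterminal g.key, g.y)

/-- linked keys -/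
def Lnk : List T → List (Key T N k) → Prop
  | h, [] => h = []
  | h, x :: l => x.2.1.1 = h ∧ Lnk x.2.2.1 l

/-- `gs` is a grouping of `E` for the word `w`. -/
structure Gr (w : List Ltr) (E : List (En T N)) (gs : List (Grp T N k c)) (h : List T)
    (acc : List (En T N)) : Prop where
  fl : gs.flatMap Grp.e = acc ++ E
  lk : Lnk h (gs.map Grp.key)
  wd : gs.flatMap Grp.y = w
  ct : gs.length = cnt k (h.length + (by' acc).length) E
  sg : (∀ x ∈ E, x.2.length = 1) → ∀ g ∈ gs, g.y.length = 1

theorem flat_len (hc : ∀ x, (c x).length = k) (w : List Ltr) :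
    (w.flatMap c).length = k * w.length := by
  induction w with
  | nil => simp
  | cons x w ih =>
    rw [List.flatMap_cons, List.length_append, hc, ih, List.length_cons]; ring

theorem exists_gr (hc : ∀ x, (c x).length = k) (E : List (En T N)) :
    ∀ (h : List T) (acc : List (En T N)) (w : List Ltr),
      h.length + (by' acc).length < k → acc.length ≤ (by' acc).length →
      (∀ x ∈ E, x.2 ≠ []) → h ++ by' acc ++ by' E = w.flatMap c →
      ∃ gs : List (Grp T N k c), Gr w E gs h acc := by
  induction E with
  | nil =>
    intro h acc w h1 h2 _ h4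
    have h5 := congrArg List.length h4
    rw [flat_len hc] at h5
    simp only [by'_nil, List.append_nil, List.length_append] at h5
    have hw : w = [] := by
      cases w with
      | nil => rfl
      | cons a w =>
        exfalso
        rw [List.length_cons, Nat.mul_add, Nat.mul_one] at h5
        omega
    subst hw
    simp only [List.length_nil, Nat.mul_zero] at h5
    have e1 : h = [] := List.eq_nil_of_length_eq_zero (by omega)
    have e2 : acc = [] := List.eq_nil_of_length_eq_zero (by omega)
    subst e1 e2
    exact ⟨[], ⟨rfl, rfl, rfl, rfl, by simp⟩⟩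
  | cons x E ih =>
    intro h acc w h1 h2 h3 h4
    have hx : x.2 ≠ [] := h3 x List.mem_cons_self
    have hxl : 0 < x.2.length := List.length_pos_iff.2 hx
    have hk : 0 < k := by omega
    have hE : ∀ y ∈ E, y.2 ≠ [] := fun y hy => h3 y (List.mem_cons_of_mem _ hy)
    have hacc : by' (acc ++ [x]) = by' acc ++ x.2 := by
      rw [by'_append]; simp [by']
    by_cases hs : h.length + (by' acc).length + x.2.length < k
    · obtain ⟨gs, hgs⟩ := ih h (acc ++ [x]) w
        (by rw [hacc, List.length_append]; omega)
        (by rw [hacc, List.length_append, List.length_append, List.length_singleton]; omega)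
        hE (by rw [hacc, ← h4, by'_cons]; simp)
      refine ⟨gs, ⟨?_, hgs.lk, hgs.wd, ?_, ?_⟩⟩
      · rw [hgs.fl]; simp
      · rw [hgs.ct, hacc, List.length_append]
        simp only [cnt]
        rw [if_neg (by omega), Nat.mod_eq_of_lt hs, zero_add, ← add_assoc]
      · intro h5
        exact hgs.sg (fun y hy => h5 y (List.mem_cons_of_mem _ hy))
    · push Not at hs
      -- close the group
      set a : List T := h ++ by' acc ++ x.2 with ha
      have hal : a.length = h.length + (by' acc).length + x.2.length := by
        rw [ha, List.length_append, List.length_append]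
      have h4' : a ++ by' E = w.flatMap c := by
        rw [← h4, ha, by'_cons]; simp
      set n := a.length / k with hn
      have hn1 : 1 ≤ n := by
        rw [hn, Nat.le_div_iff_mul_le hk]; omega
      have hkn : k * n ≤ a.length := Nat.mul_div_le _ _
      have hkn' : a.length < k * n + k := by
        have := Nat.lt_mul_div_succ a.length hk
        rw [← hn] at this
        calc a.length < k * (n + 1) := this
          _ = k * n + k := by ring
      have hnw : n ≤ w.length := by
        have h5 := congrArg List.length h4'
        rw [flat_len hc, List.length_append] at h5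
        by_contra hcon
        push Not at hcon
        have : k * (w.length + 1) ≤ k * n := Nat.mul_le_mul_left k hcon
        rw [Nat.mul_add, Nat.mul_one] at this
        omega
      have hsplit : w.flatMap c = (w.take n).flatMap c ++ (w.drop n).flatMap c := by
        rw [← List.flatMap_append, List.take_append_drop]
      have htl : ((w.take n).flatMap c).length = k * n := by
        rw [flat_len hc, List.length_take, Nat.min_eq_left hnw]
      rw [hsplit] at h4'
      have hpre : a = (w.take n).flatMap c ++ a.drop (k * n) := by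
        have hp1 : a <+: a ++ by' E := List.prefix_append _ _
        have hp2 : (w.take n).flatMap c <+: a ++ by' E := by
          rw [h4']; exact List.prefix_append _ _
        obtain ⟨r, hr⟩ := List.prefix_of_prefix_length_le hp2 hp1 (by rw [htl]; exact hkn)
        have hr2 : a.drop (k * n) = r := by
          rw [← hr, ← htl, List.drop_left]
        rw [hr2]; exact hr.symm
      have hdrop : a.drop (k * n) ++ by' E = (w.drop n).flatMap c := by
        have h7 := h4'
        rw [hpre, List.append_assoc] at h7
        exact List.append_cancel_left h7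
      have hdl : (a.drop (k * n)).length < k := by
        rw [List.length_drop]; omega
      have hmod : (a.drop (k * n)).length = a.length % k := by
        rw [List.length_drop]
        have := Nat.div_add_mod a.length k
        rw [← hn] at this
        omega
      obtain ⟨gs, hgs⟩ := ih (a.drop (k * n)) [] (w.drop n)
        (by simpa [by'] using hdl) (by simp [by']) hE (by simpa [by'_nil] using hdrop)
      have hne : w.take n ≠ [] := by
        intro h8
        have := congrArg List.length h8
        rw [List.length_take, Nat.min_eq_left hnw] at this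
        simp at this
        omega
      let g : Grp T N k c :=
        { e := acc ++ [x], h := h, t := a.drop (k * n), y := w.take n
          hh := by omega
          ht := hdl
          he := by rw [List.length_append, List.length_singleton]; omega
          hy := hne
          eq := by rw [hacc, ← List.append_assoc]; exact hpre }
      refine ⟨g :: gs, ⟨?_, ⟨rfl, hgs.lk⟩, ?_, ?_, ?_⟩⟩
      · rw [List.flatMap_cons, hgs.fl]
        simp [g]
      · rw [List.flatMap_cons, hgs.wd]
        exact List.take_append_drop n w
      · rw [List.length_cons, hgs.ct]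
        simp only [cnt, by'_nil, List.length_nil, add_zero]
        rw [if_pos (by omega), hmod, hal]
        ring
      · intro h5 g' hg'
        rcases List.mem_cons.1 hg' with rfl | hg'
        · show (w.take n).length = 1
          have hx1 := h5 x List.mem_cons_self
          have : n = 1 := by
            rw [hn, hal, hx1, show h.length + (by' acc).length + 1 = k by omega]
            exact Nat.div_self hk
          rw [List.length_take, Nat.min_eq_left hnw, this]
        · exact hgs.sg (fun y hy => h5 y (List.mem_cons_of_mem _ hy)) g' hg'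

theorem tele (gs : List (Grp T N k c)) : ∀ h : List T, Lnk h (gs.map Grp.key) →
    h ++ by' (gs.flatMap Grp.e) = (gs.flatMap Grp.y).flatMap c := by
  induction gs with
  | nil =>
    intro h hl
    have : h = [] := hl
    simp [this, by']
  | cons g gs ih =>
    intro h hl
    obtain ⟨h1, h2⟩ := hl
    have h1' : g.h = h := h1
    have h2' := ih g.t h2
    rw [List.flatMap_cons, by'_append, List.flatMap_cons, List.flatMap_append, ← List.append_assoc,
      ← h1', g.eq, List.append_assoc, h2']

theorem grp_e_ne (hc : ∀ x, (c x).length = k) (g : Grp T N k c) : g.e ≠ [] := by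
  intro h
  have h1 := congrArg List.length g.eq
  rw [h, by'_nil, List.append_nil, List.length_append, flat_len hc] at h1
  have h2 := List.length_pos_iff.2 g.hy
  have h3 := g.hh
  have h4 : k * 1 ≤ k * g.y.length := Nat.mul_le_mul_left k h2
  omega

/-- The cut predicate. -/
def CutP {Λ σ : Type} (k : ℕ) (c : Ltr → List T) (S : N) (lb : Λ → ContextFreeRule T N)
    (M : DFA Λ σ) (q : σ) (K : List (Sg (Key T N k))) : Prop :=
  ∃ gs : List (Grp T N k c), K = gs.map Grp.sg ∧ Lnk [] (gs.map Grp.key) ∧
    (∃ u : List Λ, M.eval u = q ∧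
      Der lb u [Symbol.nonterminal S] ((gs.flatMap Grp.e).map Prod.fst)) ∧
    (∃ z : List Λ, M.evalFrom q z ∈ M.accept ∧ Par lb z (gs.flatMap Grp.e))

theorem walk {Λ σ : Type} (hPRC : PRCStmt) (hc : ∀ x, (c x).length = k) (hk : 0 < k)
    (S : N) (lb : Λ → ContextFreeRule T N) (M : DFA Λ σ) (hne : ∀ l : Λ, (lb l).output ≠ [])
    (rho : ℕ) (hrho : ∀ l : Λ, (lb l).output.length ≤ rho) (w : List Ltr)
    (p : List (Sg (Key T N k)) → Prop)
    (hp : ∀ K : List (Sg (Key T N k)), (∀ x ∈ K, x.2.length = 1) → yl K = w → p K)
    (rs : List Λ) (E : List (En T N)) (hE : Par lb rs E) :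
    ∀ (u : List Λ) (gs : List (Grp T N k c)), Der lb u [Symbol.nonterminal S] (E.map Prod.fst) →
      M.evalFrom (M.eval u) rs ∈ M.accept → by' E = w.flatMap c → Gr w E gs [] [] →
      ¬ p (gs.map Grp.sg) →
    ∃ q₁ K₁ q K, CutP k c S lb M q₁ K₁ ∧ CutP k c S lb M q K ∧ yl K₁ = w ∧ yl K = w ∧
      ¬ p K₁ ∧ p K ∧ K.length ≤ K₁.length + rho := by
  have hyl : ∀ gs : List (Grp T N k c), yl (gs.map Grp.sg) = gs.flatMap Grp.y := by
    intro gs
    simp [yl, List.flatMap_map, Grp.sg]
  induction hE with
  | nil w' =>
    intro u gs _ _ _ hgs hnp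
    refine absurd (hp _ ?_ (by rw [hyl, hgs.wd])) hnp
    intro x hx
    obtain ⟨g, hg, rfl⟩ := List.mem_map.1 hx
    refine hgs.sg ?_ g hg
    intro y hy
    obtain ⟨a, _, rfl⟩ := List.mem_map.1 hy
    rfl
  | cons r rs K₁ Ks K₂ hout hpar ih =>
    intro u gs hu hacc hw hgs hnp
    have hlen : Ks.length = (lb r).output.length := by
      rw [← hout, List.length_map]
    have hby : by' (K₁ ++ Ks ++ K₂) = w.flatMap c := by
      rw [← hw]
      simp [by', List.flatMap_append]
    have hstep : (lb r).Rewrites
        ((K₁ ++ [(Symbol.nonterminal (lb r).input, Ks.flatMap Prod.snd)] ++ K₂).map Prod.fst)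
        ((K₁ ++ Ks ++ K₂).map Prod.fst) := by
      rw [ContextFreeRule.rewrites_iff]
      refine ⟨K₁.map Prod.fst, K₂.map Prod.fst, by simp, ?_⟩
      rw [← hout]
      simp
    have der_trans : ∀ {rs rs' : List Λ} {u v w : List (Symbol T N)}, Der lb rs u v →
        Der lb rs' v w → Der lb (rs ++ rs') u w := by
      intro rs rs' u v w h h'
      induction h with
      | nil u => exact h'
      | cons hr _ ih => exact Der.cons hr (ih h')
    have hu' : Der lb (u ++ [r]) [Symbol.nonterminal S] ((K₁ ++ Ks ++ K₂).map Prod.fst) :=
      der_trans hu (Der.cons hstep (Der.nil _))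
    have hev : M.evalFrom (M.eval (u ++ [r])) rs = M.evalFrom (M.eval u) (r :: rs) := by
      simp [DFA.eval, DFA.evalFrom, List.foldl_append]
    have hacc' : M.evalFrom (M.eval (u ++ [r])) rs ∈ M.accept := by
      rw [hev]; exact hacc
    have hnee := (hPRC T N Λ lb rs _ hpar).2.2 hne
    obtain ⟨gs', hgs'⟩ := exists_gr (c := c) hc (K₁ ++ Ks ++ K₂) [] [] w
      (by simpa [by'] using hk) (by simp [by']) hnee (by simpa [by'_nil] using hby)
    by_cases hpK : p (gs'.map Grp.sg)
    · have hfl : gs.flatMap Grp.e =
          K₁ ++ [(Symbol.nonterminal (lb r).input, Ks.flatMap Prod.snd)] ++ K₂ := hgs.fl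
      have hfl' : gs'.flatMap Grp.e = K₁ ++ Ks ++ K₂ := hgs'.fl
      refine ⟨M.eval u, gs.map Grp.sg, M.eval (u ++ [r]), gs'.map Grp.sg,
        ⟨gs, rfl, hgs.lk, ⟨u, rfl, by rw [hfl]; exact hu⟩, ⟨r :: rs, hacc, ?_⟩⟩,
        ⟨gs', rfl, hgs'.lk, ⟨u ++ [r], rfl, by rw [hfl']; exact hu'⟩, ⟨rs, hacc', by
          rw [hfl']; exact hpar⟩⟩,
        by rw [hyl, hgs.wd], by rw [hyl, hgs'.wd], hnp, hpK, ?_⟩
      · rw [hfl]; exact Par.cons r rs K₁ Ks K₂ hout hpar
      · rw [List.length_map, List.length_map, hgs.ct, hgs'.ct]
        have h1 := cnt_refine k hk K₁ Ks K₂ (Symbol.nonterminal (lb r).input)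
        have h2 := hrho r
        simp only [by'_nil, List.length_nil, add_zero]
        omega
    · exact ih (u ++ [r]) gs' hu' hacc' hby hgs' hpK

theorem CSY2 (hPRA : PRAStmt) (hPRB : PRBStmt) (hPRC : PRCStmt) {Λ σ : Type} [Fintype Λ]
    (hc : ∀ x, (c x).length = k) (hk : 0 < k)
    (S : N) (lb : Λ → ContextFreeRule T N) (M : DFA Λ σ) (hne : ∀ l : Λ, (lb l).output ≠ []) :
    ∃ rho : ℕ, Nonempty (CutSys (Key T N k) σ (fun w => LG S lb M (w.flatMap c)) rho) := by
  have der_trans : ∀ {rs rs' : List Λ} {u v w : List (Symbol T N)}, Der lb rs u v →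
      Der lb rs' v w → Der lb (rs ++ rs') u w := by
    intro rs rs' u v w h h'
    induction h with
    | nil u => exact h'
    | cons hr _ ih => exact Der.cons hr (ih h')
  let S'' : Key T N k := (⟨[Symbol.nonterminal S], by simp only [List.length_singleton]; omega⟩, ⟨[], by simpa using hk⟩,
    ⟨[], by simpa using hk⟩)
  refine ⟨Finset.univ.sup (fun l => (lb l).output.length), ⟨?_⟩⟩
  refine
    { S := S''
      Cut := CutP k c S lb M
      ne := ?_
      term := ?_
      hyb := ?_
      first := ?_ }
  · rintro q K ⟨gs, rfl, _⟩ x hx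
    obtain ⟨g, _, rfl⟩ := List.mem_map.1 hx
    exact g.hy
  · rintro q K ⟨gs, rfl, _⟩ a y hay
    obtain ⟨g, _, hg⟩ := List.mem_map.1 hay
    simp [Grp.sg] at hg
  · rintro q K K' B ⟨gs, rfl, hlk, ⟨u, hu, hd⟩, _⟩ ⟨gs', rfl, hlk', _, ⟨z, hz, hzp⟩⟩ hB hfst
    obtain ⟨gB, hgB, rfl⟩ := perm_map_lift Grp.sg hB gs' rfl
    have hkey : gB.map Grp.key = gs.map Grp.key := by
      have h1 : (gB.map Grp.key).map (Symbol.nonterminal : Key T N k → Symbol Ltr (Key T N k)) =
          (gs.map Grp.key).map Symbol.nonterminal := by
        rw [List.map_map, List.map_map]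
        rw [List.map_map, List.map_map] at hfst
        exact hfst
      refine (List.map_injective_iff.2 ?_) h1
      intro a b hab
      exact Symbol.nonterminal.inj hab
    have hsy : ∀ l : List (Grp T N k c), (l.flatMap Grp.e).map Prod.fst =
        (l.map Grp.key).flatMap (fun x => x.1.1) := by
      intro l
      rw [List.map_flatMap, List.flatMap_map]
      rfl
    have hperm : (gB.flatMap Grp.e).Perm (gs'.flatMap Grp.e) := hgB.flatMap_right _
    have h1 := (hPRC T N Λ lb z _ hzp).1 _ hperm
    have h2 := hPRB T N Λ lb z _ h1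
    rw [hsy, hkey, ← hsy] at h2
    have h3 := tele gB [] (by rw [hkey]; exact hlk)
    have hyl : yl (gB.map Grp.sg) = gB.flatMap Grp.y := by
      simp [yl, List.flatMap_map, Grp.sg]
    show LG S lb M ((yl (gB.map Grp.sg)).flatMap c)
    rw [hyl, ← h3, List.nil_append]
    refine ⟨u ++ z, ?_, der_trans hd h2⟩
    have : M.eval (u ++ z) = M.evalFrom (M.eval u) z := by
      simp [DFA.eval, DFA.evalFrom, List.foldl_append]
    rw [this, hu]
    exact hz
  · rintro w ⟨rs, hacc, hder⟩ p hnp hp
    obtain ⟨E, hE1, hE2, hpar⟩ := hPRA T N Λ lb rs _ (w.flatMap c) hder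
    have hE : E = [(Symbol.nonterminal S, w.flatMap c)] := by
      cases E with
      | nil => simp at hE1
      | cons x E' =>
        cases E' with
        | nil =>
          simp only [List.map_cons, List.map_nil, List.cons.injEq, and_true] at hE1
          simp only [List.flatMap_cons, List.flatMap_nil, List.append_nil] at hE2
          rw [← hE1, ← hE2]
        | cons y E'' => simp at hE1
    have hnee := (hPRC T N Λ lb rs _ hpar).2.2 hne
    have hwne : w.flatMap c ≠ [] := hnee _ (by rw [hE]; exact List.mem_singleton.2 rfl)
    have hw1 : 1 ≤ w.length := by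
      cases w with
      | nil => simp at hwne
      | cons a w => simp
    obtain ⟨gs, hgs⟩ := exists_gr (c := c) hc E [] [] w
      (by simpa [by'] using hk) (by simp [by']) hnee (by
        simp only [by'_nil, List.nil_append]; exact hE2)
    refine walk hPRC hc hk S lb M hne _ (fun l => Finset.le_sup (f := fun l => (lb l).output.length)
      (Finset.mem_univ l)) w p hp rs E hpar [] gs ?_ ?_ hE2 hgs ?_
    · rw [hE1]; exact Der.nil _
    · exact hacc
    · have hlen : gs.length = 1 := by
        rw [hgs.ct, hE]
        simp only [cnt, by'_nil, List.length_nil, add_zero]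
        rw [flat_len hc, if_pos]
        calc k = k * 1 := by ring
          _ ≤ k * w.length := Nat.mul_le_mul_left k hw1
          _ = 0 + k * w.length := by ring
      obtain ⟨g, rfl⟩ := List.length_eq_one_iff.1 hlen
      have h1 : g.e = E := by simpa using hgs.fl
      have h2 : g.h = [] := hgs.lk.1
      have h3 : g.t = [] := hgs.lk.2
      have h4 : g.y = w := by simpa using hgs.wd
      have h5 : g.sg = (Symbol.nonterminal S'', w) := by
        unfold Grp.sg
        rw [h4]
        congr 2
        unfold Grp.key
        simp only [S'']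
        congr 1
        · apply Subtype.ext
          show g.e.map Prod.fst = _
          rw [h1, hE]; rfl
        · congr 1
          · apply Subtype.ext; exact h2
          · apply Subtype.ext; exact h3
      rw [List.map_singleton, h5]
      exact hnp

end Pool.Agent.H21.INS.Era
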